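import Mathlib

set_option autoImplicit false

namespace Pool.Agent.W345.TA

open Finset

/-- a primitive fifth root of unity -/
noncomputable def ζ : ℂ := Complex.exp (2 * Real.pi * Complex.I / (5 : ℕ))

theorem ζ_prim : IsPrimitiveRoot ζ 5 := Complex.isPrimitiveRoot_exp 5 (by norm_num)

theorem ζ_sum : 1 + ζ + ζ ^ 2 + ζ ^ 3 + ζ ^ 4 = 0 := by
  have h := ζ_prim.geom_sum_eq_zero (by norm_num)
  simp only [Finset.sum_range_succ, Finset.sum_range_zero, pow_zero, pow_one, zero_add] at h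
  exact h

theorem lin4 (b₀ b₁ b₂ b₃ : ℚ)
    (h : (b₀ : ℂ) + b₁ * ζ + b₂ * ζ ^ 2 + b₃ * ζ ^ 3 = 0) : b₀ = 0 ∧ b₁ = 0 ∧ b₂ = 0 ∧ b₃ = 0 := by
  open Polynomial in
  have hmin : (minpoly ℚ ζ).degree = 4 := by
    rw [← Polynomial.cyclotomic_eq_minpoly_rat ζ_prim (by norm_num), Polynomial.degree_cyclotomic]
    have : Nat.totient 5 = 4 := by decide
    rw [this]; rfl
  set P : ℚ[X] := C b₀ + C b₁ * X + C b₂ * X ^ 2 + C b₃ * X ^ 3 with hP
  have hev : aeval ζ P = 0 := by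
    simp only [hP, map_add, map_mul, map_pow, aeval_C, aeval_X]
    simpa using h
  have hP0 : P = 0 := by
    by_contra hne
    have h1 := minpoly.degree_le_of_ne_zero ℚ ζ hne hev
    rw [hmin] at h1
    have h2 : P.degree ≤ 3 := by
      rw [hP]
      compute_degree
    have h3 := h1.trans h2
    norm_num at h3
  have hc : ∀ k, P.coeff k = 0 := by intro k; rw [hP0, coeff_zero]
  have c0 := hc 0
  have c1 := hc 1
  have c2 := hc 2
  have c3 := hc 3
  simp only [hP, coeff_add, coeff_C_mul, coeff_C, coeff_X, coeff_X_pow] at c0 c1 c2 c3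
  norm_num at c0 c1 c2 c3
  exact ⟨c0, c1, c2, c3⟩

/-- the character -/
noncomputable def χ (i : ZMod 5) : ℂ := ζ ^ i.val

theorem χ_nat (k : ℕ) : χ (k : ZMod 5) = ζ ^ k := by
  unfold χ
  rw [ZMod.val_natCast]
  conv_rhs => rw [← Nat.div_add_mod k 5, pow_add, pow_mul, ζ_prim.pow_eq_one, one_pow, one_mul]

theorem χ_add (i j : ZMod 5) : χ (i + j) = χ i * χ j := by
  have h : i + j = ((i.val + j.val : ℕ) : ZMod 5) := by
    push_cast
    rw [ZMod.natCast_zmod_val, ZMod.natCast_zmod_val]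
  rw [h, χ_nat, pow_add]
  rfl

theorem lemZ (b : ZMod 5 → ℤ) (h : ∑ i, (b i : ℂ) * χ i = 0) : ∀ i, b i = b 0 := by
  have h1 : ∑ i : ZMod 5, (b i : ℂ) * χ i =
      (b 0 : ℂ) * χ 0 + b 1 * χ 1 + b 2 * χ 2 + b 3 * χ 3 + b 4 * χ 4 :=
    Fin.sum_univ_five (fun i : Fin 5 => (b i : ℂ) * χ i)
  rw [h1] at h
  have e0 : χ 0 = 1 := by simpa using χ_nat 0
  have e1 : χ 1 = ζ := by simpa using χ_nat 1
  have e2 : χ 2 = ζ ^ 2 := by simpa using χ_nat 2
  have e3 : χ 3 = ζ ^ 3 := by simpa using χ_nat 3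
  have e4 : χ 4 = ζ ^ 4 := by simpa using χ_nat 4
  rw [e0, e1, e2, e3, e4] at h
  have h2 : (((b 0 - b 4 : ℤ) : ℚ) : ℂ) + (((b 1 - b 4 : ℤ) : ℚ) : ℂ) * ζ +
      (((b 2 - b 4 : ℤ) : ℚ) : ℂ) * ζ ^ 2 + (((b 3 - b 4 : ℤ) : ℚ) : ℂ) * ζ ^ 3 = 0 := by
    push_cast
    linear_combination h - (b 4 : ℂ) * ζ_sum
  obtain ⟨q0, q1, q2, q3⟩ := lin4 _ _ _ _ h2
  have q0' : b 0 - b 4 = 0 := by exact_mod_cast q0
  have q1' : b 1 - b 4 = 0 := by exact_mod_cast q1
  have q2' : b 2 - b 4 = 0 := by exact_mod_cast q2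
  have q3' : b 3 - b 4 = 0 := by exact_mod_cast q3
  have hall : ∀ i : ZMod 5, i = 0 ∨ i = 1 ∨ i = 2 ∨ i = 3 ∨ i = 4 := by decide
  intro i
  rcases hall i with rfl | rfl | rfl | rfl | rfl <;> omega

theorem alg (a b : ZMod 5 → ℤ) (h : ∀ j, ∑ i, a i * b (i + j) = 0) :
    (∀ i, a i = a 0) ∨ (∀ i, b i = b 0) := by
  have hAB : (∑ i, (a i : ℂ) * χ i) * (∑ k, (b (-k) : ℂ) * χ k) = 0 := by
    rw [Finset.sum_mul_sum]
    have e1 : ∀ i : ZMod 5, ∑ k, (a i : ℂ) * χ i * ((b (-k) : ℂ) * χ k) =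
        ∑ j : ZMod 5, χ (-j) * ((a i * b (i + j) : ℤ) : ℂ) := by
      intro i
      rw [← Equiv.sum_comp (Equiv.subLeft (-i))]
      refine Finset.sum_congr rfl fun j _ => ?_
      simp only [Equiv.subLeft_apply]
      have h1 : χ (-i - j) * χ i = χ (-j) := by
        rw [← χ_add]; congr 1; ring
      have h2 : -(-i - j) = i + j := by ring
      rw [h2]
      push_cast
      linear_combination (a i : ℂ) * b (i + j) * h1
    rw [Finset.sum_congr rfl fun i _ => e1 i, Finset.sum_comm]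
    refine Finset.sum_eq_zero fun j _ => ?_
    rw [← Finset.mul_sum]
    have : (∑ i, ((a i * b (i + j) : ℤ) : ℂ)) = 0 := by exact_mod_cast h j
    rw [this, mul_zero]
  rcases mul_eq_zero.1 hAB with h1 | h1
  · left; exact lemZ a h1
  · right
    have := lemZ (fun k => b (-k)) h1
    intro i
    have h2 := this (-i)
    simpa using h2

section act

variable {G X : Type} [Group G] [Fintype X] [MulAction G X]

theorem exists_tau (hcard : Fintype.card X = 10) (htr : ∀ x y : X, ∃ g : G, g • x = y) :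
    ∃ τ : G, (∀ x : X, τ ^ 5 • x = x) ∧ ∃ x₀ : X, τ • x₀ ≠ x₀ := by
  classical
  set H := (MulAction.toPermHom G X).range with hH
  have : MulAction.IsPretransitive H X := ⟨fun x y => by
    obtain ⟨g, hg⟩ := htr x y
    exact ⟨⟨MulAction.toPermHom G X g, g, rfl⟩, hg⟩⟩
  have hne : Nonempty X := by
    rw [← Fintype.card_pos_iff, hcard]; norm_num
  obtain ⟨x₁⟩ := hne
  have h1 : (MulAction.stabilizer H x₁).index = Nat.card X :=
    MulAction.index_stabilizer_of_transitive H x₁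
  have h2 : (MulAction.stabilizer H x₁).index ∣ Nat.card H := Subgroup.index_dvd_card _
  rw [h1, Nat.card_eq_fintype_card, hcard] at h2
  have : Fact (Nat.Prime 5) := ⟨by norm_num⟩
  obtain ⟨⟨σ, τ, hτ⟩, hσ⟩ := exists_prime_orderOf_dvd_card' (G := H) 5 ((by norm_num : 5 ∣ 10).trans h2)
  have hσ' : orderOf σ = 5 := by
    rw [← hσ]; exact (Subgroup.orderOf_mk σ _).symm
  have hact : ∀ x : X, τ • x = σ x := by
    intro x
    rw [← hτ]; rfl
  have hact' : ∀ (k : ℕ) (x : X), τ ^ k • x = (σ ^ k) x := by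
    intro k x
    rw [← hτ, ← map_pow]; rfl
  refine ⟨τ, fun x => ?_, ?_⟩
  · rw [hact', ← hσ', pow_orderOf_eq_one]; rfl
  · by_contra hcon
    push Not at hcon
    have : σ = 1 := by
      ext x
      rw [← hact, hcon]; rfl
    rw [this, orderOf_one] at hσ'
    norm_num at hσ'

variable {c τ : G} {x₀ : X}

/-- the orbit -/
def yy (τ : G) (x₀ : X) (i : ZMod 5) : X := τ ^ i.val • x₀

omit [Fintype X] in
theorem yy_nat (h5 : ∀ x : X, τ ^ 5 • x = x) (k : ℕ) : yy τ x₀ (k : ZMod 5) = τ ^ k • x₀ := by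
  have h : ∀ m : ℕ, (τ ^ 5) ^ m • (τ ^ (k % 5) • x₀) = τ ^ (k % 5) • x₀ := by
    intro m
    induction m with
    | zero => simp
    | succ m ih => rw [pow_succ, mul_smul, h5, ih]
  unfold yy
  rw [ZMod.val_natCast]
  conv_rhs => rw [← Nat.div_add_mod k 5, pow_add, pow_mul, mul_smul, h]

omit [Fintype X] in
theorem yy_add (h5 : ∀ x : X, τ ^ 5 • x = x) (i j : ZMod 5) :
    yy τ x₀ (i + j) = τ ^ j.val • yy τ x₀ i := by
  have h : i + j = ((j.val + i.val : ℕ) : ZMod 5) := by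
    push_cast
    rw [ZMod.natCast_zmod_val, ZMod.natCast_zmod_val, add_comm]
  rw [h, yy_nat h5, pow_add, mul_smul]
  rfl

omit [Fintype X] in
theorem yy_inj (h5 : ∀ x : X, τ ^ 5 • x = x) (h0 : τ • x₀ ≠ x₀) :
    Function.Injective (yy τ x₀) := by
  have hper : Function.minimalPeriod (τ • ·) x₀ = 5 := by
    have h1 : Function.minimalPeriod (τ • ·) x₀ ∣ 5 :=
      MulAction.pow_smul_eq_iff_minimalPeriod_dvd.1 (h5 x₀)
    rcases (Nat.dvd_prime (by norm_num)).1 h1 with h | h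
    · exfalso
      apply h0
      have : τ ^ 1 • x₀ = x₀ := MulAction.pow_smul_eq_iff_minimalPeriod_dvd.2 (by rw [h])
      simpa using this
    · exact h
  intro i j hij
  have h1 : τ ^ ((i.val : ℤ) - (j.val : ℤ)) • x₀ = x₀ := by
    unfold yy at hij
    rw [sub_eq_neg_add, zpow_add, mul_smul, zpow_natCast, hij, ← zpow_natCast, ← mul_smul,
      ← zpow_add, neg_add_cancel, zpow_zero, one_smul]
  have h2 := MulAction.zpow_smul_eq_iff_minimalPeriod_dvd.1 h1
  rw [hper] at h2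
  have h3 : (((i.val : ℤ) - (j.val : ℤ) : ℤ) : ZMod 5) = 0 :=
    (ZMod.intCast_zmod_eq_zero_iff_dvd _ 5).2 (by exact_mod_cast h2)
  push_cast at h3
  rw [ZMod.natCast_zmod_val, ZMod.natCast_zmod_val] at h3
  exact sub_eq_zero.1 h3

omit [Fintype X] in
theorem yy_c (h5 : ∀ x : X, τ ^ 5 • x = x) (hc : ∀ g, c * g = g * c) (hs : c * c = 1)
    (hn : ∀ x : X, c • x ≠ x) (i j : ZMod 5) : yy τ x₀ i ≠ c • yy τ x₀ j := by
  intro h
  set z := yy τ x₀ j with hz
  have h1 : yy τ x₀ i = τ ^ (i - j).val • z := by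
    rw [hz, ← yy_add h5]; congr 1; ring
  rw [h1] at h
  set ρ := τ ^ (i - j).val with hρ
  have h2 : ρ • ρ • z = z := by
    rw [h, ← mul_smul, ← hc, mul_smul, h, ← mul_smul, hs, one_smul]
  have h3 : ρ • ρ • ρ • ρ • ρ • z = z := by
    have : ρ • ρ • ρ • ρ • ρ • z = ρ ^ 5 • z := by
      simp only [← mul_smul]
      congr 1
      simp only [pow_succ, pow_zero, one_mul, mul_assoc]
    rw [this, hρ, ← pow_mul, mul_comm, pow_mul]
    have : ∀ m : ℕ, (τ ^ 5) ^ m • z = z := by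
      intro m
      induction m with
      | zero => simp
      | succ m ih => rw [pow_succ, mul_smul, h5, ih]
    exact this _
  rw [h2, h2] at h3
  rw [h3] at h
  exact hn z h.symm

theorem yy_sum (hcard : Fintype.card X = 10) (h5 : ∀ x : X, τ ^ 5 • x = x) (h0 : τ • x₀ ≠ x₀)
    (hc : ∀ g, c * g = g * c) (hs : c * c = 1) (hn : ∀ x : X, c • x ≠ x) :
    (∀ x : X, ∃ i, x = yy τ x₀ i ∨ x = c • yy τ x₀ i) ∧
    ∀ f : X → ℤ, ∑ x, f x = ∑ i, f (yy τ x₀ i) + ∑ i, f (c • yy τ x₀ i) := by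
  set e : ZMod 5 ⊕ ZMod 5 → X := Sum.elim (yy τ x₀) (fun i => c • yy τ x₀ i) with he
  have hinj : Function.Injective e := by
    rintro (i | i) (j | j) hij
    · exact congrArg _ (yy_inj h5 h0 hij)
    · exact absurd hij (yy_c h5 hc hs hn i j)
    · exact absurd hij.symm (yy_c h5 hc hs hn j i)
    · simp only [he, Sum.elim_inr] at hij
      exact congrArg _ (yy_inj h5 h0 (smul_left_cancel c hij))
  have hbij : Function.Bijective e := by
    rw [Fintype.bijective_iff_injective_and_card]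
    refine ⟨hinj, ?_⟩
    rw [Fintype.card_sum, hcard, ZMod.card]
  refine ⟨fun x => ?_, fun f => ?_⟩
  · obtain ⟨i | i, hi⟩ := hbij.2 x
    · exact ⟨i, Or.inl hi.symm⟩
    · exact ⟨i, Or.inr hi.symm⟩
  · rw [← Equiv.sum_comp (Equiv.ofBijective e hbij), Fintype.sum_sum_type]
    rfl

theorem const (hcard : Fintype.card X = 10) (h5 : ∀ x : X, τ ^ 5 • x = x) (h0 : τ • x₀ ≠ x₀)
    (hc : ∀ g, c * g = g * c) (hs : c * c = 1) (hn : ∀ x : X, c • x ≠ x)
    (n : X → G → ℤ) (h1 : ∀ x g h, n (g • x) h = n x (h * g)) (h2 : ∀ x, n (c • x) = -n x)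
    (hinj : Function.Injective n) (a : X → ℤ) (ha : ∀ x, a (c • x) = -a x)
    (hrel : ∀ g, ∑ x, a x * n x g = 0) (i : ZMod 5) : a (yy τ x₀ i) = a (yy τ x₀ 0) := by
  obtain ⟨-, hsum⟩ := yy_sum hcard h5 h0 hc hs hn
  have hr : ∀ g, ∑ i, a (yy τ x₀ i) * n (yy τ x₀ i) g = 0 := by
    intro g
    have h := hrel g
    rw [hsum] at h
    have h' : ∑ i, a (c • yy τ x₀ i) * n (c • yy τ x₀ i) g =
        ∑ i, a (yy τ x₀ i) * n (yy τ x₀ i) g := by
      refine Finset.sum_congr rfl fun i _ => ?_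
      rw [ha, h2, Pi.neg_apply]
      ring
    rw [h'] at h
    linarith
  have hr2 : ∀ g j, ∑ i, a (yy τ x₀ i) * n (yy τ x₀ (i + j)) g = 0 := by
    intro g j
    rw [← hr (g * τ ^ j.val)]
    refine Finset.sum_congr rfl fun i _ => ?_
    rw [yy_add h5, h1]
  by_contra hcon
  have hN : ∀ g i, n (yy τ x₀ i) g = n (yy τ x₀ 0) g := by
    intro g
    rcases alg (fun i => a (yy τ x₀ i)) (fun i => n (yy τ x₀ i) g) (hr2 g) with h | h
    · exact absurd (h i) hcon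
    · exact h
  have h3 : n (yy τ x₀ 1) = n (yy τ x₀ 0) := funext fun g => hN g 1
  have h4 := yy_inj h5 h0 (hinj h3)
  exact absurd h4 (by decide)

theorem rank5' (hcard : Fintype.card X = 10) (htr : ∀ x y : X, ∃ g : G, g • x = y)
    (hc : ∀ g, c * g = g * c) (hs : c * c = 1) (hn : ∀ x : X, c • x ≠ x)
    (n : X → G → ℤ) (h1 : ∀ x g h, n (g • x) h = n x (h * g)) (h2 : ∀ x, n (c • x) = -n x)
    (hinj : Function.Injective n) (a : X → ℤ) (ha : ∀ x, a (c • x) = -a x)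
    (hrel : ∀ g, ∑ x, a x * n x g = 0) (g : G) :
    (∀ x, a (g • x) = a x) ∨ ∀ x, a (g • x) = -a x := by
  obtain ⟨τ, h5, x₀, h0⟩ := exists_tau hcard htr
  obtain ⟨hex, -⟩ := yy_sum hcard h5 h0 hc hs hn
  have k1 := const hcard h5 h0 hc hs hn n h1 h2 hinj a ha hrel
  have k2 := const hcard h5 h0 hc hs hn n h1 h2 hinj (fun x => a (g • x))
    (fun x => by
      rw [← mul_smul, ← hc, mul_smul, ha])
    (fun h => by
      rw [← hrel (h * g⁻¹), ← Equiv.sum_comp (MulAction.toPerm g⁻¹ : Equiv.Perm X)]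
      refine Finset.sum_congr rfl fun x _ => ?_
      simp only [MulAction.toPerm_apply]
      rw [smul_inv_smul, h1])
  have key : ∀ s : ℤ, a (g • yy τ x₀ 0) = s * a (yy τ x₀ 0) → ∀ x, a (g • x) = s * a x := by
    intro s hs' x
    obtain ⟨i, rfl | rfl⟩ := hex x
    · rw [k2 i, hs', k1 i]
    · rw [← mul_smul, ← hc, mul_smul, ha, ha, k2 i, hs', k1 i]
      ring
  obtain ⟨i, hi | hi⟩ := hex (g • yy τ x₀ 0)
  · left
    intro x
    rw [key 1 (by rw [hi, k1 i]; ring) x, one_mul]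
  · right
    intro x
    rw [key (-1) (by rw [hi, ha, k1 i]; ring) x]
    ring

end act

end Pool.Agent.W345.TA
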