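import Pool.Agent.W495.TA.Stms
import Pool.Agent.W345.TA.Rank5a

set_option autoImplicit false

namespace Pool.Agent.W345.TA

theorem rank5 : Pool.Agent.W495.TA.S_rank5 := by
  intro G X _ _ _ _ c hS n h1 h2 hcard hinj a ha hrel _
  exact rank5' hcard hS.trans hS.comm hS.sq hS.ne n h1 h2 hinj a ha hrel

end Pool.Agent.W345.TA
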